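import Pool.Agent.H11.ZDE.Stmts

/-!
# Project ZDE (MP_92a1a0_co), module LEM (helper31): lifting for special matchings, Lemma E
-/

set_option autoImplicit false

namespace Pool.Agent.H11.ZDE

open RootLat

section bru
variable {B : Type*} {M : CoxeterMatrix B} {W : Type*} [Group W] {cs : CoxeterSystem M W}

theorem Bru.refl (x : W) : Bru cs x x := Relation.ReflTransGen.refl

theorem Bru.trans {x y z : W} (h : Bru cs x y) (h' : Bru cs y z) : Bru cs x z :=
  Relation.ReflTransGen.trans h h'

theorem Bru.len {x y : W} (h : Bru cs x y) : x = y ∨ cs.length x < cs.length y := by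
  induction h with
  | refl => exact Or.inl rfl
  | tail _ h ih =>
    obtain ⟨t, _, _, hl⟩ := h
    rcases ih with rfl | ih
    · exact Or.inr hl
    · exact Or.inr (ih.trans hl)

theorem Bru.len_lt {x y : W} (h : Bru cs x y) (hne : x ≠ y) : cs.length x < cs.length y :=
  h.len.resolve_left hne

theorem Bru.len_le {x y : W} (h : Bru cs x y) : cs.length x ≤ cs.length y := by
  rcases h.len with rfl | h
  · exact le_rfl
  · exact h.le

theorem Bru.eq_of_len {x y : W} (h : Bru cs x y) (hl : cs.length y ≤ cs.length x) : x = y := by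
  rcases h.len with h | h
  · exact h
  · omega

theorem Bru.antisymm {x y : W} (h : Bru cs x y) (h' : Bru cs y x) : x = y :=
  h.eq_of_len h'.len_le

theorem Cov.lt {x y : W} (h : Cov cs x y) : cs.length x < cs.length y := h.1.len_lt h.2.1

theorem cov_of_len {x y : W} (h : Bru cs x y) (hl : cs.length y = cs.length x + 1) :
    Cov cs x y := by
  refine ⟨h, fun e => by rw [e] at hl; omega, fun z h1 h2 => ?_⟩
  rcases h1.len with h3 | h3
  · exact Or.inl h3.symm
  · exact Or.inr (h2.eq_of_len (by omega))

/-- induction along chains of covers -/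
theorem Bru.cov_induction {u v : W} (C : W → W → Prop) (hr : ∀ x, Ic cs u v x → C x x)
    (ht : ∀ x y z, C x y → C y z → C x z)
    (hc : ∀ x y, Ic cs u v x → Ic cs u v y → Cov cs x y → C x y) :
    ∀ (n : ℕ) (x y : W), cs.length y ≤ cs.length x + n → Ic cs u v x → Ic cs u v y →
      Bru cs x y → C x y := by
  intro n
  induction n with
  | zero =>
    intro x y hn hx _ hxy
    have := hxy.eq_of_len (by omega)
    subst this
    exact hr x hx
  | succ n ih =>
    intro x y hn hx hy hxy
    by_cases hne : x = y
    · subst hne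
      exact hr x hx
    by_cases hcov : Cov cs x y
    · exact hc x y hx hy hcov
    · have : ∃ z, Bru cs x z ∧ Bru cs z y ∧ z ≠ x ∧ z ≠ y := by
        by_contra hcon
        push Not at hcon
        refine hcov ⟨hxy, hne, fun z h1 h2 => ?_⟩
        by_cases hz : z = x
        · exact Or.inl hz
        · exact Or.inr (hcon z h1 h2 hz)
      obtain ⟨z, h1, h2, h3, h4⟩ := this
      have hz : Ic cs u v z := ⟨hx.1.trans h1, h2.trans hy.2⟩
      have l1 := h1.len_lt (Ne.symm h3)
      have l2 := h2.len_lt h4
      exact ht x z y (ih x z (by omega) hx hz h1) (ih z y (by omega) hz hy h2)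

theorem SM.ne {u v : W} {m : W → W} (h : SM cs u v m) {x : W} (hx : Ic cs u v x) : m x ≠ x := by
  rcases h.cov x hx with h | h
  · exact Ne.symm h.2.1
  · exact h.2.1

theorem SM.inj {u v : W} {m : W → W} (h : SM cs u v m) {x y : W} (hx : Ic cs u v x)
    (hy : Ic cs u v y) (hxy : m x = m y) : x = y := by
  rw [← h.invol x hx, ← h.invol y hy, hxy]

open Classical in
/-- the lower one of `x`, `m x` -/
noncomputable def lo (cs : CoxeterSystem M W) (m : W → W) (x : W) : W :=
  if Cov cs x (m x) then x else m x

open Classical in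
/-- the upper one of `x`, `m x` -/
noncomputable def hi (cs : CoxeterSystem M W) (m : W → W) (x : W) : W :=
  if Cov cs x (m x) then m x else x

theorem not_cov_of_cov {x y : W} (h : Cov cs x y) : ¬ Cov cs y x := fun h' => by
  have := h.lt
  have := h'.lt
  omega

theorem lo_up {m : W → W} {x : W} (h : Cov cs x (m x)) : lo cs m x = x := if_pos h
theorem hi_up {m : W → W} {x : W} (h : Cov cs x (m x)) : hi cs m x = m x := if_pos h
theorem lo_down {m : W → W} {x : W} (h : Cov cs (m x) x) : lo cs m x = m x :=
  if_neg (not_cov_of_cov h)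
theorem hi_down {m : W → W} {x : W} (h : Cov cs (m x) x) : hi cs m x = x :=
  if_neg (not_cov_of_cov h)

/-- The maps lower one and upper one of a special matching preserve the Bruhat order. -/
theorem SM.mono {u v : W} {m : W → W} (h : SM cs u v m) {x y : W} (hx : Ic cs u v x)
    (hy : Ic cs u v y) (hxy : Bru cs x y) :
    Bru cs (lo cs m x) (lo cs m y) ∧ Bru cs (hi cs m x) (hi cs m y) := by
  refine Bru.cov_induction (u := u) (v := v)
    (fun x y => Bru cs (lo cs m x) (lo cs m y) ∧ Bru cs (hi cs m x) (hi cs m y))
    (fun x _ => ⟨Bru.refl _, Bru.refl _⟩) (fun x y z h1 h2 => ⟨h1.1.trans h2.1, h1.2.trans h2.2⟩)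
    ?_ (cs.length y) x y (by omega) hx hy hxy
  intro x y hx hy hc
  by_cases hm : m x = y
  · have hmy : m y = x := by rw [← hm, h.invol x hx]
    have h1 : Cov cs x (m x) := by rw [hm]; exact hc
    have h2 : Cov cs (m y) y := by rw [hmy]; exact hc
    rw [lo_up h1, hi_up h1, lo_down h2, hi_down h2, hm, hmy]
    exact ⟨Bru.refl _, Bru.refl _⟩
  · obtain ⟨hs, -⟩ := h.special x y hx hy hc hm
    rcases h.cov x hx with h1 | h1 <;> rcases h.cov y hy with h2 | h2
    · rw [lo_up h1, hi_up h1, lo_up h2, hi_up h2]
      exact ⟨hc.1, hs⟩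
    · exfalso
      rcases hc.2.2 (m x) h1.1 (hs.trans h2.1) with h3 | h3
      · exact h1.2.1 h3.symm
      · exact hm h3
    · rw [lo_down h1, hi_down h1, lo_up h2, hi_up h2]
      exact ⟨h1.1.trans hc.1, hc.1.trans h2.1⟩
    · rw [lo_down h1, hi_down h1, lo_down h2, hi_down h2]
      exact ⟨hs, hc.1⟩

/-- lifting property of special matchings -/
theorem SM.lift {u v : W} {m : W → W} (h : SM cs u v m) {x y : W} (hx : Ic cs u v x)
    (hy : Ic cs u v y) (hxy : Bru cs x y) (h1 : Cov cs x (m x)) (h2 : Cov cs (m y) y) :
    Bru cs (m x) y ∧ Bru cs x (m y) := by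
  have := h.mono hx hy hxy
  rw [lo_up h1, hi_up h1, lo_down h2, hi_down h2] at this
  exact ⟨this.2, this.1⟩

/-- both down -/
theorem SM.lift_dd {u v : W} {m : W → W} (h : SM cs u v m) {x y : W} (hx : Ic cs u v x)
    (hy : Ic cs u v y) (hxy : Bru cs x y) (h1 : Cov cs (m x) x) (h2 : Cov cs (m y) y) :
    Bru cs (m x) (m y) := by
  have := h.mono hx hy hxy
  rw [lo_down h1, lo_down h2] at this
  exact this.1

/-- both up -/
theorem SM.lift_uu {u v : W} {m : W → W} (h : SM cs u v m) {x y : W} (hx : Ic cs u v x)
    (hy : Ic cs u v y) (hxy : Bru cs x y) (h1 : Cov cs x (m x)) (h2 : Cov cs y (m y)) :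
    Bru cs (m x) (m y) := by
  have := h.mono hx hy hxy
  rw [hi_up h1, hi_up h2] at this
  exact this.2

/-- in every case except `x` up, `y` down, `m x ≤ m y` -/
theorem SM.lift_bru {u v : W} {m : W → W} (h : SM cs u v m) {x y : W} (hx : Ic cs u v x)
    (hy : Ic cs u v y) (hxy : Bru cs x y) (h1 : Cov cs (m x) x ∨ Cov cs y (m y)) :
    Bru cs (m x) (m y) := by
  rcases h1 with h1 | h1
  · rcases h.cov y hy with h2 | h2
    · exact h1.1.trans (hxy.trans h2.1)
    · exact h.lift_dd hx hy hxy h1 h2
  · rcases h.cov x hx with h2 | h2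
    · exact h.lift_uu hx hy hxy h2 h1
    · exact h2.1.trans (hxy.trans h1.1)

/-- the top element is down -/
theorem SM.top {u v : W} {m : W → W} (h : SM cs u v m) (huv : Bru cs u v) : Cov cs (m v) v := by
  have hv : Ic cs u v v := ⟨huv, Bru.refl v⟩
  rcases h.cov v hv with h1 | h1
  · exact absurd h1.lt (by have := (h.maps v hv).2.len_le; omega)
  · exact h1

/-- the bottom element is up -/
theorem SM.bot {u v : W} {m : W → W} (h : SM cs u v m) (huv : Bru cs u v) : Cov cs u (m u) := by
  have hv : Ic cs u v u := ⟨Bru.refl u, huv⟩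
  rcases h.cov u hv with h1 | h1
  · exact h1
  · exact absurd h1.lt (by have := (h.maps u hv).1.len_le; omega)

end bru

section geo
variable {B W : Type*} [Group W] {M : CoxeterMatrix B} {cs : CoxeterSystem M W}
  {L : Type*} [AddCommGroup L] {R : RootLat L} (G : Geo cs R)

theorem Geo.TT {b : L} (hb : R.Q b b = 2) : G.T b * G.T b = 1 := by
  apply G.inj
  rw [map_mul, G.ρT b hb, R.r_r hb, map_one]

theorem Geo.Jn.symm {x y : W} (h : G.Jn x y) : G.Jn y x := by
  obtain ⟨b, hb, hp, rfl⟩ := h
  exact ⟨b, hb, hp, by rw [mul_assoc, G.TT hb, mul_one]⟩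

theorem Geo.bru_of_pos {x : W} {b : L} (hb : R.Q b b = 2) (hp : R.P b) (hx : R.P (G.ρ x b)) :
    Bru cs x (x * G.T b) :=
  Relation.ReflTransGen.single ⟨G.T b, (G.refl _).2 ⟨b, hb, hp, rfl⟩, rfl, G.lt x b hb hp hx⟩

theorem Geo.pos_or_neg (x : W) {b : L} (hb : R.Q b b = 2) : R.P (G.ρ x b) ∨ R.P (-(G.ρ x b)) :=
  R.P_root _ (by rw [G.iso, hb])

theorem Geo.Jn.len_ne {x y : W} (h : G.Jn x y) : cs.length x ≠ cs.length y := by
  obtain ⟨b, hb, hp, rfl⟩ := h
  rcases G.pos_or_neg x hb with h | h
  · exact (G.lt x b hb hp h).ne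
  · exact (G.gt x b hb hp h).ne'

theorem Geo.Jn.pos {x : W} {b : L} (hb : R.Q b b = 2) (hp : R.P b)
    (hl : cs.length x < cs.length (x * G.T b)) : R.P (G.ρ x b) := by
  rcases G.pos_or_neg x hb with h | h
  · exact h
  · have := G.gt x b hb hp h
    omega

theorem Geo.Jn.bru {x y : W} (h : G.Jn x y) (hl : cs.length x < cs.length y) : Bru cs x y := by
  obtain ⟨b, hb, hp, rfl⟩ := h
  exact G.bru_of_pos hb hp (Geo.Jn.pos G hb hp hl)

theorem Geo.ρr (x : W) {b : L} (hb : R.Q b b = 2) (a : L) :
    G.ρ (x * G.T b) a = G.ρ x (a - R.Q a b • b) := by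
  rw [map_mul, G.ρT b hb, Module.End.mul_apply, R.r_apply]

/-- **Lemma E**: special matchings preserve the Bruhat graph. -/
theorem lemmaE (hGrad : GradStmt G) (hCov : CovStmt G) (hDia : DiamondStmt cs)
    (hKH : KHardStmt G) (hKL : KLongStmt G) : LemmaEStmt G := by
  intro u v m hm
  have key : ∀ (n : ℕ) (p q : W), cs.length q ≤ cs.length p + n → cs.length p < cs.length q →
      Ic cs u v p → Ic cs u v q → G.Jn p q → G.Jn (m p) (m q) := by
    intro n
    induction n using Nat.strong_induction_on with
    | _ n ih =>
      intro p q hn hlt hp hq hpq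
      by_cases hlen : cs.length q = cs.length p + 1
      · -- cover
        have hc : Cov cs p q := (hCov p q).2 ⟨hpq, hlen⟩
        by_cases hmp : m p = q
        · have hmq : m q = p := by rw [← hmp, hm.invol p hp]
          rw [hmp, hmq]
          exact hpq.symm
        · obtain ⟨hs, hne⟩ := hm.special p q hp hq hc hmp
          have hsl := hs.len_lt hne
          rcases hm.cov p hp with h1 | h1 <;> rcases hm.cov q hq with h2 | h2
          · have l1 := ((hCov _ _).1 h1).2
            have l2 := ((hCov _ _).1 h2).2
            exact ((hCov _ _).1 (cov_of_len hs (by omega))).1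
          · have l1 := ((hCov _ _).1 h1).2
            have l2 := ((hCov _ _).1 h2).2
            omega
          · -- the hard case
            have l1 := ((hCov _ _).1 h1).2
            have l2 := ((hCov _ _).1 h2).2
            obtain ⟨a, hap, hBa, haq⟩ := hDia _ _ _ h1 hc
            have hmB : m (m p) = p := hm.invol p hp
            have hB : Ic cs u v (m p) := hm.maps p hp
            have hT : Ic cs u v (m q) := hm.maps q hq
            have ha : Ic cs u v a := ⟨hB.1.trans hBa.1, haq.1.trans hq.2⟩
            have l3 := ((hCov _ _).1 hBa).2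
            have l4 := ((hCov _ _).1 haq).2
            have s1 := hm.special (m p) a hB ha hBa (by rw [hmB]; exact Ne.symm hap)
            rw [hmB] at s1
            have l5 := s1.1.len_lt s1.2
            have hca : Cov cs a (m a) := by
              rcases hm.cov a ha with h | h
              · exact h
              · have := h.lt
                omega
            have l6 := ((hCov _ _).1 hca).2
            have hcq : m a ≠ q := by
              intro e
              have : m q = a := by rw [← e, hm.invol a ha]
              rw [this] at l2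
              omega
            have s2 := hm.special a q ha hq haq hcq
            have hpc : Cov cs p (m a) := cov_of_len s1.1 (by omega)
            have hcT : Cov cs (m a) (m q) := cov_of_len s2.1 (by omega)
            refine hKH p a (m p) q (m a) (m q) (Ne.symm hap) ?_ ?_ (Ne.symm hcq)
              ((hCov _ _).1 h1).1.symm hpq ((hCov _ _).1 hpc).1 ((hCov _ _).1 hBa).1.symm
              ((hCov _ _).1 haq).1 ((hCov _ _).1 hca).1 ((hCov _ _).1 h2).1
              ((hCov _ _).1 hcT).1 (by omega)
            · intro e
              rw [e] at l1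
              omega
            · intro e
              rw [← e] at l6
              omega
          · have l1 := ((hCov _ _).1 h1).2
            have l2 := ((hCov _ _).1 h2).2
            exact ((hCov _ _).1 (cov_of_len hs (by omega))).1
      · -- long edge
        obtain ⟨b, hb, hbp, rfl⟩ := hpq
        have hpb := Geo.Jn.pos G hb hbp hlt
        obtain ⟨c, d, hc, hcp, hd, hdp, rfl, hpc, hpd⟩ := hGrad p b hb hbp hpb (by omega)
        have hcd : R.Q c d = -1 := by
          have := hb
          rw [R.Q_add, R.Q_addr, R.Q_addr, hc, hd, R.Q_comm d c] at this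
          omega
        have hdc : R.Q d c = -1 := by rw [R.Q_comm]; exact hcd
        have hbc : R.Q (c + d) c = 1 := by rw [R.Q_add, hc, hdc]; norm_num
        have hbd : R.Q (c + d) d = 1 := by rw [R.Q_add, hd, hcd]; norm_num
        -- word identities
        have w1 : G.T c * G.T d * G.T c = G.T (c + d) := by
          apply G.inj
          simp only [map_mul, G.ρT c hc, G.ρT d hd, G.ρT (c + d) hb]
          rw [R.swm hc hcd, mul_assoc, R.r_r hc, mul_one]
        have w2 : G.T d * G.T c * G.T d = G.T (c + d) := by
          apply G.inj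
          simp only [map_mul, G.ρT c hc, G.ρT d hd, G.ρT (c + d) hb]
          rw [R.swm hd hdc, mul_assoc, R.r_r hd, mul_one, add_comm]
        have w3 : G.T c * G.T (c + d) = G.T d * G.T c := by
          rw [← w1, ← mul_assoc, ← mul_assoc, G.TT hc, one_mul]
        have w4 : G.T d * G.T (c + d) = G.T c * G.T d := by
          rw [← w2, ← mul_assoc, ← mul_assoc, G.TT hd, one_mul]
        -- edges
        have e1 : Bru cs p (p * G.T c) := G.bru_of_pos hc hcp hpc
        have e2 : Bru cs p (p * G.T d) := G.bru_of_pos hd hdp hpd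
        have e3 : Bru cs (p * G.T c) (p * G.T c * G.T d) :=
          G.bru_of_pos hd hdp (by rw [G.ρr p hc, hdc]; simpa [add_comm] using hpb)
        have e4 : Bru cs (p * G.T d) (p * G.T d * G.T c) :=
          G.bru_of_pos hc hcp (by rw [G.ρr p hd, hcd]; simpa using hpb)
        have e5 : Bru cs (p * G.T c * G.T d) (p * G.T c * G.T d * G.T c) :=
          G.bru_of_pos hc hcp (by
            rw [G.ρr _ hd, hcd, G.ρr p hc]
            simp only [R.Q_sub, R.Q_smul, hc, hdc]
            refine R.P_cast hpd ?_
            congr 1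
            module)
        have e6 : Bru cs (p * G.T d * G.T c) (p * G.T d * G.T c * G.T d) :=
          G.bru_of_pos hd hdp (by
            rw [G.ρr _ hc, hdc, G.ρr p hd]
            simp only [R.Q_sub, R.Q_smul, hd, hcd]
            refine R.P_cast hpc ?_
            congr 1
            module)
        have q1 : p * G.T c * G.T d * G.T c = p * G.T (c + d) := by
          rw [mul_assoc, mul_assoc, ← mul_assoc (G.T c), w1]
        have q2 : p * G.T d * G.T c * G.T d = p * G.T (c + d) := by
          rw [mul_assoc, mul_assoc, ← mul_assoc (G.T d), w2]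
        rw [q1] at e5
        rw [q2] at e6
        have nT : ∀ (x : W) {b : L}, R.Q b b = 2 → R.P b → cs.length x ≠ cs.length (x * G.T b) :=
          fun x b hb hp => Geo.Jn.len_ne G ⟨b, hb, hp, rfl⟩
        have n1 := nT p hc hcp
        have n2 := nT p hd hdp
        have n3 := nT (p * G.T c) hd hdp
        have n4 := nT (p * G.T d) hc hcp
        have n5 := nT (p * G.T c * G.T d) hc hcp
        have n6 := nT (p * G.T d * G.T c) hd hdp
        rw [q1] at n5
        rw [q2] at n6
        have l1 := e1.len_le
        have l2 := e2.len_le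
        have l3 := e3.len_le
        have l4 := e4.len_le
        have l5 := e5.len_le
        have l6 := e6.len_le
        -- the six elements are in the interval
        have i1 : Ic cs u v (p * G.T c) := ⟨hp.1.trans e1, (e3.trans e5).trans hq.2⟩
        have i2 : Ic cs u v (p * G.T d) := ⟨hp.1.trans e2, (e4.trans e6).trans hq.2⟩
        have i3 : Ic cs u v (p * G.T c * G.T d) := ⟨hp.1.trans (e1.trans e3), e5.trans hq.2⟩
        have i4 : Ic cs u v (p * G.T d * G.T c) := ⟨hp.1.trans (e2.trans e4), e6.trans hq.2⟩
        -- joined pairs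
        have j11 : G.Jn p (p * G.T c) := ⟨c, hc, hcp, rfl⟩
        have j12 : G.Jn p (p * G.T d) := ⟨d, hd, hdp, rfl⟩
        have j21 : G.Jn (p * G.T c) (p * G.T c * G.T d) := ⟨d, hd, hdp, rfl⟩
        have j31 : G.Jn (p * G.T c) (p * G.T d * G.T c) := ⟨c + d, hb, hbp, by
          rw [mul_assoc, mul_assoc, w3]⟩
        have j22 : G.Jn (p * G.T d) (p * G.T c * G.T d) := ⟨c + d, hb, hbp, by
          rw [mul_assoc, mul_assoc, w4]⟩
        have j32 : G.Jn (p * G.T d) (p * G.T d * G.T c) := ⟨c, hc, hcp, rfl⟩
        have j23 : G.Jn (p * G.T c * G.T d) (p * G.T (c + d)) := ⟨c, hc, hcp, q1.symm⟩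
        have j33 : G.Jn (p * G.T d * G.T c) (p * G.T (c + d)) := ⟨d, hd, hdp, q2.symm⟩
        -- apply the induction hypothesis
        have IH : ∀ x y : W, Ic cs u v x → Ic cs u v y → G.Jn x y →
            cs.length x < cs.length y + n → cs.length y < cs.length x + n → G.Jn (m x) (m y) := by
          intro x y hx hy hj hx1 hy1
          rcases lt_or_gt_of_ne (Geo.Jn.len_ne G hj) with h | h
          · exact ih (cs.length y - cs.length x) (by omega) x y (by omega) h hx hy hj
          · exact (ih (cs.length x - cs.length y) (by omega) y x (by omega) h hy hx hj.symm).symm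
        refine hKL (m (p * G.T c)) (m (p * G.T d)) (m (p * G.T (c + d))) (m p)
          (m (p * G.T c * G.T d)) (m (p * G.T d * G.T c)) ?_ ?_ ?_ ?_
          (IH _ _ i1 hp j11.symm (by omega) (by omega))
          (IH _ _ i1 i3 j21 (by omega) (by omega))
          (IH _ _ i1 i4 j31 (by omega) (by omega))
          (IH _ _ i2 hp j12.symm (by omega) (by omega))
          (IH _ _ i2 i3 j22 (by omega) (by omega))
          (IH _ _ i2 i4 j32 (by omega) (by omega))
          (IH _ _ hq i3 j23.symm (by omega) (by omega))
          (IH _ _ hq i4 j33.symm (by omega) (by omega))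
        · intro e
          have e' := mul_left_cancel (hm.inj i1 i2 e)
          have : R.r c = R.r d := by rw [← G.ρT c hc, ← G.ρT d hd, e']
          have h3 := congrArg (fun f => R.Q (f c) c) this
          simp only [R.r_apply, R.Q_sub, R.Q_smul, hc, hcd, hdc] at h3
          norm_num at h3
        · intro e
          have e' := hm.inj hp i3 e
          have : cs.length p = cs.length (p * G.T c * G.T d) := congrArg _ e'
          omega
        · intro e
          have e' := hm.inj hp i4 e
          have : cs.length p = cs.length (p * G.T d * G.T c) := congrArg _ e'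
          omega
        · intro e
          have e' := hm.inj i3 i4 e
          rw [mul_assoc, mul_assoc] at e'
          have e'' := congrArg G.ρ (mul_left_cancel e')
          simp only [map_mul, G.ρT c hc, G.ρT d hd] at e''
          have h3 := congrArg (fun f => R.Q (f c) d) e''
          simp only [Module.End.mul_apply, R.r_apply, R.Q_sub, R.Q_smul, hc, hd, hcd, hdc] at h3
          norm_num at h3
  intro p q hp hq hpq
  rcases lt_or_gt_of_ne (Geo.Jn.len_ne G hpq) with h | h
  · exact key (cs.length q) p q (by omega) h hp hq hpq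
  · exact (key (cs.length p) q p (by omega) h hq hp hpq.symm).symm

end geo

end Pool.Agent.H11.ZDE
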